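import Pool.Agent.Helper63.P705.NUM.Goals

/-!
# MP_705522_gt, (NUM): packet N15 (third absolute moment)
-/

namespace Pool.Agent.Helper77.P705

open Pool.Agent.Helper63.P705
open Pool.Agent.Helper53.PT (mo m3 f0 f1 f2 nu aMO aLAW mo_one mo_mono)
open MeasureTheory

/-! ### Newton's iteration with floors -/

/-- one step -/
def nst (N s : ℕ) : ℕ := (s + N / s) / 2

lemma nst_bounds {N s : ℕ} {R : ℝ} (hs : 0 < s) (hR : R ^ 2 = N) :
    (s - R) ^ 2 / (2 * s) - 1 ≤ (nst N s : ℝ) - R ∧ (nst N s : ℝ) - R ≤ (s - R) ^ 2 / (2 * s) := by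
  have hs' : (0 : ℝ) < s := by exact_mod_cast hs
  have h1 : s * (N / s) + N % s = N := Nat.div_add_mod N s
  have h2 : N % s < s := Nat.mod_lt _ hs
  have h3 : 2 * ((s + N / s) / 2) + (s + N / s) % 2 = s + N / s := Nat.div_add_mod _ 2
  have h4 : (s + N / s) % 2 < 2 := Nat.mod_lt _ (by norm_num)
  have ht : nst N s = (s + N / s) / 2 := rfl
  rw [← ht] at h3
  generalize nst N s = t at h3 ⊢
  generalize N / s = q at h1 h3 h4
  have h1' : (s : ℝ) * q + (N % s : ℕ) = N := by exact_mod_cast h1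
  have h2' : ((N % s : ℕ) : ℝ) < s := by exact_mod_cast h2
  have h20 : (0 : ℝ) ≤ ((N % s : ℕ) : ℝ) := Nat.cast_nonneg _
  have h3' : 2 * (t : ℝ) + ((s + q) % 2 : ℕ) = s + q := by exact_mod_cast h3
  have h4' : (((s + q) % 2 : ℕ) : ℝ) ≤ 1 := by
    have : (s + q) % 2 ≤ 1 := by omega
    exact_mod_cast this
  have h40 : (0 : ℝ) ≤ (((s + q) % 2 : ℕ) : ℝ) := Nat.cast_nonneg _
  have e : (s - R) ^ 2 / (2 * s) = (s + N / s) / 2 - R := by
    field_simp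
    rw [← hR]
    ring
  rw [e]
  have hq1 : (q : ℝ) ≤ N / s := by
    rw [le_div_iff₀ hs']
    linarith
  have hq2 : (N : ℝ) / s - 1 ≤ q := by
    rw [sub_le_iff_le_add, div_le_iff₀ hs']
    linarith
  constructor <;> linarith

lemma nst_step {N s : ℕ} {R D : ℝ} (hR : R ^ 2 = N) (hR0 : 2 ^ 49 + 1 ≤ R)
    (h1 : -1 ≤ (s : ℝ) - R) (h2 : (s : ℝ) - R ≤ D) (hD : 1 ≤ D) :
    -1 ≤ (nst N s : ℝ) - R ∧ (nst N s : ℝ) - R ≤ D ^ 2 / 2 ^ 50 := by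
  have hs : (2 : ℝ) ^ 49 ≤ s := by linarith
  have hs0 : 0 < s := by
    have : (0 : ℝ) < s := lt_of_lt_of_le (by positivity) hs
    exact_mod_cast this
  obtain ⟨h3, h4⟩ := nst_bounds hs0 hR
  have hs' : (0 : ℝ) < s := by exact_mod_cast hs0
  have h5 : 0 ≤ (s - R) ^ 2 / (2 * s) := by positivity
  have h6 : ((s : ℝ) - R) ^ 2 ≤ D ^ 2 := sq_le_sq' (by linarith) h2
  have h7 : (s - R) ^ 2 / (2 * s) ≤ D ^ 2 / 2 ^ 50 := by
    apply div_le_div₀ (by positivity) h6 (by positivity)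
    have : (2 : ℝ) ^ 50 = 2 * 2 ^ 49 := by ring
    rw [this]
    linarith
  constructor <;> linarith

/-- seven steps -/
def it7 (N s : ℕ) : ℕ := nst N (nst N (nst N (nst N (nst N (nst N (nst N s))))))

/-- seven steps from `3·2^49` -/
lemma newton7 {N s : ℕ} {R : ℝ} (hs : (s : ℝ) = 3 * 2 ^ 49) (hR : R ^ 2 = N) (hR0 : 2 ^ 50 - 2 ≤ R)
    (hR1 : R ≤ 2 ^ 51) : |(it7 N s : ℝ) - R| ≤ 1 := by
  have hRl : 2 ^ 49 + 1 ≤ R := by
    have : (2 : ℝ) ^ 50 - 2 - (2 ^ 49 + 1) ≥ 0 := by norm_num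
    linarith
  have hs0 : 0 < s := by
    have : (0 : ℝ) < s := by rw [hs]; norm_num
    exact_mod_cast this
  unfold it7
  obtain ⟨h3, h4⟩ := nst_bounds hs0 hR
  generalize nst N s = s1 at h3 h4 ⊢
  have a1 : -1 ≤ (s1 : ℝ) - R ∧ (s1 : ℝ) - R ≤ 2 ^ 47 := by
    rw [hs] at h3 h4
    have h5 : 0 ≤ ((3 : ℝ) * 2 ^ 49 - R) ^ 2 / (2 * (3 * 2 ^ 49)) := by positivity
    have h6 : ((3 : ℝ) * 2 ^ 49 - R) ^ 2 ≤ (2 ^ 49 + 2) ^ 2 := by
      apply sq_le_sq'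
      · have : (3 : ℝ) * 2 ^ 49 - 2 ^ 51 + (2 ^ 49 + 2) ≥ 0 := by norm_num
        linarith
      · have : (3 : ℝ) * 2 ^ 49 - (2 ^ 50 - 2) - (2 ^ 49 + 2) ≤ 0 := by norm_num
        linarith
    have h7 : ((3 : ℝ) * 2 ^ 49 - R) ^ 2 / (2 * (3 * 2 ^ 49)) ≤ 2 ^ 47 := by
      rw [div_le_iff₀ (by norm_num)]
      refine h6.trans ?_
      norm_num
    generalize ((3 : ℝ) * 2 ^ 49 - R) ^ 2 / (2 * (3 * 2 ^ 49)) = y at h3 h4 h5 h7
    constructor <;> linarith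
  clear h3 h4 hs hs0
  have a2 := nst_step hR hRl a1.1 a1.2 (by norm_num)
  have a3 := nst_step hR hRl a2.1 a2.2 (by norm_num)
  have a4 := nst_step hR hRl a3.1 a3.2 (by norm_num)
  have a5 := nst_step hR hRl a4.1 a4.2 (by norm_num)
  have a5' := a5.2.trans (show _ ≤ (4 : ℝ) by norm_num)
  have a6 := nst_step hR hRl a5.1 a5' (by norm_num)
  have a6' := a6.2.trans (show _ ≤ (1 : ℝ) by norm_num)
  have a7 := nst_step hR hRl a6.1 a6' le_rfl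
  exact abs_le.2 ⟨a7.1, a7.2.trans (by norm_num)⟩

/-! ### Integer form of `m3N` -/

lemma lp7 (f : ℕ → ℕ → ℕ) (s : ℕ) :
    lp 7 f s = f 0 (f 1 (f 2 (f 3 (f 4 (f 5 (f 6 s)))))) := by
  rw [show (7 : ℕ) = 6 + 1 from rfl, lp_succ, show (6 : ℕ) = 5 + 1 from rfl, lp_succ,
    show (5 : ℕ) = 4 + 1 from rfl, lp_succ, show (4 : ℕ) = 3 + 1 from rfl, lp_succ,
    show (3 : ℕ) = 2 + 1 from rfl, lp_succ, show (2 : ℕ) = 1 + 1 from rfl, lp_succ,
    show (1 : ℕ) = 0 + 1 from rfl, lp_succ, lp_zero]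

lemma shr_eq (a k : ℕ) : Nat.shiftRight a k = a / 2 ^ k := Nat.shiftRight_eq_div_pow a k
lemma shl_eq (a k : ℕ) : Nat.shiftLeft a k = a * 2 ^ k := Nat.shiftLeft_eq a k

lemma step_eq (N s : ℕ) : Nat.shiftRight (Nat.add s (Nat.div N s)) 1 = nst N s := by
  rw [shr_eq, pow_one]
  rfl

/-- the quotient -/
def quo (g2 w0 w1 c : ℕ) : ℕ := g2 * g2 * w0 * 655360 * 2 ^ 100 / (w1 * w1 * w1 * c)

lemma m3N_eq (a : ℕ) : ∃ s : ℕ, (s : ℝ) = 3 * 2 ^ 49 ∧ m3N a =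
    it7 (quo (fld GT 128 (2 * a)) (fld GT 128 (8192 - a)) (fld GT 128 a) (8192 - a)) s / 2 ^ 10 := by
  refine ⟨3 * 2 ^ 49, by norm_num, ?_⟩
  unfold m3N it7
  rw [sq_eq, sq_eq, sq_eq, sq_eq, lp7]
  simp only [step_eq]
  rw [shr_eq, shl_eq 3 49, shl_eq _ 100]
  rfl

lemma natdiv_err (X Y : ℕ) (hY : 0 < Y) : |((X / Y : ℕ) : ℝ) - X / Y| ≤ 1 := by
  have hY' : (0 : ℝ) < Y := by exact_mod_cast hY
  have h1 : Y * (X / Y) + X % Y = X := Nat.div_add_mod _ _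
  have h2 : X % Y < Y := Nat.mod_lt _ hY
  generalize X / Y = q at h1 ⊢
  generalize X % Y = m at h1 h2
  have h1' : (Y : ℝ) * q + m = X := by exact_mod_cast h1
  have h2' : (m : ℝ) ≤ Y := by exact_mod_cast h2.le
  have h3' : (0 : ℝ) ≤ m := Nat.cast_nonneg _
  have e : (X : ℝ) / Y = q + m / Y := by
    rw [← h1']
    field_simp
  rw [e, abs_le]
  have q4 : (m : ℝ) / Y ≤ 1 := by rw [div_le_one hY']; exact h2'
  have q5 : 0 ≤ (m : ℝ) / Y := by positivity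
  constructor <;> linarith

lemma quo_err (g2 w0 w1 c : ℕ) (hw1 : 0 < w1) (hc : 0 < c) :
    |(quo g2 w0 w1 c : ℝ) - 2 ^ 100 * ((g2 : ℝ) ^ 2 * w0 * (655360 / c) / (w1 : ℝ) ^ 3)| ≤ 1 := by
  have h := natdiv_err (g2 * g2 * w0 * 655360 * 2 ^ 100) (w1 * w1 * w1 * c) (by positivity)
  have e1 : ((g2 * g2 * w0 * 655360 * 2 ^ 100 : ℕ) : ℝ) / ((w1 * w1 * w1 * c : ℕ) : ℝ) =
      2 ^ 100 * ((g2 : ℝ) ^ 2 * w0 * (655360 / c) / (w1 : ℝ) ^ 3) := by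
    have hw1' : (0 : ℝ) < w1 := by exact_mod_cast hw1
    have hc' : (0 : ℝ) < c := by exact_mod_cast hc
    simp only [Nat.cast_mul, Nat.cast_pow, Nat.cast_ofNat]
    field_simp
  rw [e1] at h
  exact h

/-- final rounding -/
lemma round10 {s : ℕ} {Q : ℝ} (h1 : -2 ≤ (s : ℝ) - Q) (h2 : (s : ℝ) - Q ≤ 2) :
    |((s / 2 ^ 10 : ℕ) : ℝ) / 2 ^ 40 - Q / 2 ^ 50| ≤ 2⁻¹ ^ 39 := by
  have r1 : 2 ^ 10 * (s / 2 ^ 10) + s % 2 ^ 10 = s := Nat.div_add_mod _ _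
  have r2 : s % 2 ^ 10 < 2 ^ 10 := Nat.mod_lt _ (by norm_num)
  generalize s / 2 ^ 10 = z at r1 ⊢
  generalize s % 2 ^ 10 = z' at r1 r2
  have r1' : (2 : ℝ) ^ 10 * z + z' = s := by exact_mod_cast r1
  have r2' : (z' : ℝ) ≤ 1024 := by
    have : z' ≤ 1024 := by norm_num at r2; omega
    exact_mod_cast this
  have r3' : (0 : ℝ) ≤ z' := Nat.cast_nonneg _
  have e6 : (z : ℝ) = ((s : ℝ) - z') / 2 ^ 10 := by
    rw [← r1']; ring
  have e8 : (z : ℝ) / 2 ^ 40 - Q / 2 ^ 50 = ((s : ℝ) - z' - Q) / 2 ^ 50 := by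
    rw [e6]; ring
  rw [e8, abs_le]
  constructor
  · rw [le_div_iff₀ (by positivity)]
    have : -(2⁻¹ : ℝ) ^ 39 * 2 ^ 50 = -2048 := by norm_num
    rw [this]
    linarith
  · rw [div_le_iff₀ (by positivity)]
    have : (2⁻¹ : ℝ) ^ 39 * 2 ^ 50 = 2048 := by norm_num
    rw [this]
    linarith

/-! ### The real number `m3` -/

section
variable {θ : ℝ} (h0 : 0 < θ) (h1 : θ < 1 / 2)
include h0 h1

lemma one_le_m3 : 1 ≤ m3 θ := by
  obtain ⟨hp, hpos, hint, hmom, h3, -, -⟩ := aLAW h0 h1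
  have := hp
  have i2 : ∫ y, y ^ 2 ∂(nu θ) = 1 := by
    have := hmom 1
    rw [mo_one h0 (by linarith)] at this
    simpa using this
  have hle : ∫ y, (3 / 2 * y ^ 2 - 1 / 2) ∂(nu θ) ≤ ∫ y, y ^ 3 ∂(nu θ) := by
    apply integral_mono_ae
    · exact ((hint 2).const_mul _).sub (integrable_const _)
    · exact hint 3
    · filter_upwards [hpos] with y hy
      nlinarith [mul_nonneg (sq_nonneg (y - 1)) (by linarith : (0 : ℝ) ≤ 2 * y + 1)]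
  rw [integral_sub ((hint 2).const_mul _) (integrable_const _), integral_const_mul, i2, h3] at hle
  simp only [integral_const, probReal_univ, smul_eq_mul] at hle
  linarith

lemma m3_le : m3 θ ≤ 7 / 4 := by
  obtain ⟨hp, hpos, hint, hmom, h3, -, -⟩ := aLAW h0 h1
  have := hp
  have i2 : ∫ y, y ^ 2 ∂(nu θ) = 1 := by
    have := hmom 1
    rw [mo_one h0 (by linarith)] at this
    simpa using this
  have i4 : ∫ y, y ^ 4 ∂(nu θ) ≤ 3 := by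
    have e := hmom 2
    have e2 : mo θ 2 ≤ 3 := by
      have h5 := mo_mono h0 h1.le le_rfl 2
      have h6 := aMO.2.2 1
      rw [mo_one (by norm_num) (by norm_num)] at h6
      norm_num at h6
      rw [h6] at h5
      exact h5
    norm_num at e
    rw [e]
    exact e2
  have hle : ∫ y, y ^ 3 ∂(nu θ) ≤ ∫ y, (y ^ 2 + 1 / 4 * y ^ 4) ∂(nu θ) := by
    apply integral_mono_ae
    · exact hint 3
    · exact (hint 2).add ((hint 4).const_mul _)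
    · filter_upwards [hpos] with y hy
      nlinarith [sq_nonneg (y * (1 - y / 2))]
  rw [integral_add (hint 2) ((hint 4).const_mul _), integral_const_mul, i2, h3] at hle
  linarith

lemma m3_sq : m3 θ ^ 2 = gG (1 + 2 * θ) ^ 2 * gG (1 - θ) / gG (1 + θ) ^ 3 := by
  have hG2 : 0 < Real.Gamma (1 + 2 * θ) := Real.Gamma_pos_of_pos (by linarith)
  have hGm : 0 < Real.Gamma (1 - θ) := Real.Gamma_pos_of_pos (by linarith)
  have hGp : 0 < Real.Gamma (1 + θ) := Real.Gamma_pos_of_pos (by linarith)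
  have e1 : m3 θ ^ 2 = Real.Gamma (1 + 2 * θ) ^ 2 * Real.Gamma (1 - θ) / Real.Gamma (1 + θ) ^ 3 := by
    unfold m3
    rw [mul_pow, ← Real.rpow_mul_natCast (div_pos hGm hGp).le]
    norm_num
    field_simp
  have hp80 : ((80 : ℝ) ^ (-(1 + 2 * θ))) ^ 2 * (80 : ℝ) ^ (-(1 - θ)) = ((80 : ℝ) ^ (-(1 + θ))) ^ 3 := by
    rw [← Real.rpow_mul_natCast (by norm_num), ← Real.rpow_mul_natCast (by norm_num),
      ← Real.rpow_add (by norm_num)]
    congr 1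
    push_cast
    ring
  have hpp : 0 < (80 : ℝ) ^ (-(1 + θ)) := Real.rpow_pos_of_pos (by norm_num) _
  have hE : 0 < Real.exp 80 := Real.exp_pos _
  rw [e1]
  unfold gG
  rw [div_eq_div_iff (by positivity) (by positivity)]
  have : (Real.Gamma (1 + 2 * θ) * 80 ^ (-(1 + 2 * θ)) * Real.exp 80) ^ 2 *
      (Real.Gamma (1 - θ) * 80 ^ (-(1 - θ)) * Real.exp 80) =
      Real.Gamma (1 + 2 * θ) ^ 2 * Real.Gamma (1 - θ) *
        (((80 : ℝ) ^ (-(1 + 2 * θ))) ^ 2 * (80 : ℝ) ^ (-(1 - θ))) * Real.exp 80 ^ 3 := by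
    ring
  rw [this, hp80]
  ring

end

/-! ### The error of the quotient -/

/-- relative errors -/
lemma ratio_err {A B C K E : ℝ} {g2 w0 w1 : ℝ} (hA : 0 < A) (hB : 0 < B) (hC : 0 < C) (hK : 0 < K)
    (hE0 : 0 < E) (hE1 : E ≤ 1 / 100)
    (h2 : |g2 - 256 * A| ≤ E * (256 * A)) (hw0 : |w0 - 256 * B| ≤ E * (256 * B))
    (hw1 : |w1 - 256 * C| ≤ E * (256 * C)) :
    |g2 ^ 2 * w0 * K / w1 ^ 3 - A ^ 2 * B * K / C ^ 3| ≤ 8 * E * (A ^ 2 * B * K / C ^ 3) := by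
  rw [abs_le] at h2 hw0 hw1
  set M := A ^ 2 * B * K / C ^ 3 with hM
  have hM0 : 0 < M := by positivity
  set u := g2 / (256 * A) with hu
  set v := w0 / (256 * B) with hv
  set w := w1 / (256 * C) with hw
  have eu : g2 = 256 * A * u := by rw [hu]; field_simp
  have ev : w0 = 256 * B * v := by rw [hv]; field_simp
  have ew : w1 = 256 * C * w := by rw [hw]; field_simp
  have bu : 1 - E ≤ u ∧ u ≤ 1 + E := by
    rw [hu]
    constructor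
    · rw [le_div_iff₀ (by positivity)]; linarith
    · rw [div_le_iff₀ (by positivity)]; linarith
  have bv : 1 - E ≤ v ∧ v ≤ 1 + E := by
    rw [hv]
    constructor
    · rw [le_div_iff₀ (by positivity)]; linarith
    · rw [div_le_iff₀ (by positivity)]; linarith
  have bw : 1 - E ≤ w ∧ w ≤ 1 + E := by
    rw [hw]
    constructor
    · rw [le_div_iff₀ (by positivity)]; linarith
    · rw [div_le_iff₀ (by positivity)]; linarith
  have hE' : 0 < 1 - E := by linarith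
  have hu0 : 0 < u := lt_of_lt_of_le hE' bu.1
  have hv0 : 0 < v := lt_of_lt_of_le hE' bv.1
  have hw0' : 0 < w := lt_of_lt_of_le hE' bw.1
  have key : g2 ^ 2 * w0 * K / w1 ^ 3 = M * (u ^ 2 * v / w ^ 3) := by
    rw [hM, eu, ev, ew]
    field_simp
  rw [key]
  have up1 : u ^ 2 * v ≤ (1 + E) ^ 3 := by
    calc u ^ 2 * v ≤ (1 + E) ^ 2 * (1 + E) :=
          mul_le_mul (pow_le_pow_left₀ hu0.le bu.2 2) bv.2 hv0.le (by positivity)
      _ = (1 + E) ^ 3 := by ring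
  have up2 : (1 - E) ^ 3 ≤ u ^ 2 * v := by
    calc (1 - E) ^ 3 = (1 - E) ^ 2 * (1 - E) := by ring
      _ ≤ u ^ 2 * v := mul_le_mul (pow_le_pow_left₀ hE'.le bu.1 2) bv.1 hE'.le (by positivity)
  have up3 : w ^ 3 ≤ (1 + E) ^ 3 := pow_le_pow_left₀ hw0'.le bw.2 3
  have up4 : (1 - E) ^ 3 ≤ w ^ 3 := pow_le_pow_left₀ hE'.le bw.1 3
  have c1 : u ^ 2 * v / w ^ 3 ≤ 1 + 8 * E := by
    rw [div_le_iff₀ (by positivity)]
    have : (1 + E) ^ 3 ≤ (1 + 8 * E) * (1 - E) ^ 3 := by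
      nlinarith [mul_pos hE0 hE0, mul_pos (mul_pos hE0 hE0) hE0]
    calc u ^ 2 * v ≤ (1 + E) ^ 3 := up1
      _ ≤ (1 + 8 * E) * (1 - E) ^ 3 := this
      _ ≤ (1 + 8 * E) * w ^ 3 := mul_le_mul_of_nonneg_left up4 (by positivity)
  have c2 : 1 - 8 * E ≤ u ^ 2 * v / w ^ 3 := by
    rw [le_div_iff₀ (by positivity)]
    have : (1 - 8 * E) * (1 + E) ^ 3 ≤ (1 - E) ^ 3 := by
      nlinarith [mul_pos hE0 hE0, mul_pos (mul_pos hE0 hE0) hE0]
    calc (1 - 8 * E) * w ^ 3 ≤ (1 - 8 * E) * (1 + E) ^ 3 :=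
          mul_le_mul_of_nonneg_left up3 (by linarith)
      _ ≤ (1 - E) ^ 3 := this
      _ ≤ u ^ 2 * v := up2
  rw [abs_le]
  constructor
  · nlinarith
  · nlinarith

theorem n15 : N15 := by
  intro hN4 hg a ha1 ha2
  set θ : ℝ := (a : ℝ) / 8192 with hθ
  have ha1' : (2048 : ℝ) ≤ a := by exact_mod_cast ha1
  have ha2' : (a : ℝ) < 4096 := by exact_mod_cast ha2
  have h0 : 0 < θ := by rw [hθ]; positivity
  have h1 : θ < 1 / 2 := by rw [hθ, div_lt_iff₀ (by norm_num)]; linarith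
  obtain ⟨hG2, hF2⟩ := hg (2 * a) (by omega)
  obtain ⟨hW0, hFW0⟩ := hg (8192 - a) (by omega)
  obtain ⟨hW1, hFW1⟩ := hg a (by omega)
  have hsub : ((8192 - a : ℕ) : ℝ) = 8192 - a := by
    rw [Nat.cast_sub (by omega)]
    norm_num
  have e2 : (1 : ℝ) + ((2 * a : ℕ) : ℝ) / 8192 = 1 + 2 * θ := by
    rw [hθ]; push_cast; ring
  have e0 : (1 : ℝ) + ((8192 - a : ℕ) : ℝ) / 8192 = (1 - θ) + 1 := by
    rw [hsub, hθ]; ring
  have e1 : (1 : ℝ) + (a : ℝ) / 8192 = 1 + θ := by rw [hθ]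
  rw [e2] at hG2
  rw [e0] at hW0
  rw [e1] at hW1
  have pA : 0 < gG (1 + 2 * θ) := (hN4.1 _ (by linarith)).2
  have pB : 0 < gG ((1 - θ) + 1) := (hN4.1 _ (by linarith)).2
  have pC : 0 < gG (1 + θ) := (hN4.1 _ (by linarith)).2
  have hBeq : gG ((1 - θ) + 1) = (1 - θ) / 80 * gG (1 - θ) := (hN4.1 _ (by linarith)).1
  have hc : (0 : ℝ) < 8192 - a := by linarith
  set K : ℝ := 655360 / (8192 - a) with hK
  have hKp : 0 < K := by positivity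
  have hMeq : gG (1 + 2 * θ) ^ 2 * gG ((1 - θ) + 1) * K / gG (1 + θ) ^ 3 = m3 θ ^ 2 := by
    rw [m3_sq h0 h1, hBeq, hK]
    have : (1 - θ) = (8192 - a) / 8192 := by rw [hθ]; ring
    have hne : (8192 : ℝ) - a ≠ 0 := hc.ne'
    have h3 : (1 - θ) / 80 * gG (1 - θ) * (655360 / (8192 - (a : ℝ))) = gG (1 - θ) := by
      rw [show (1 - θ) / 80 * gG (1 - θ) * (655360 / (8192 - (a : ℝ))) =
        ((1 - θ) / 80 * (655360 / (8192 - (a : ℝ)))) * gG (1 - θ) by ring]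
      rw [this]
      have : (8192 - (a : ℝ)) / 8192 / 80 * (655360 / (8192 - (a : ℝ))) = 1 := by
        field_simp
        norm_num
      rw [this, one_mul]
    rw [mul_assoc, h3]
  have hm1 := one_le_m3 h0 h1
  have hm2 := m3_le h0 h1
  have hEpos : (0 : ℝ) < 2⁻¹ ^ 106 := by positivity
  have hErr := ratio_err pA pB pC hKp hEpos (by norm_num) hG2 hW0 hW1
  rw [hMeq] at hErr
  -- the integer quotient
  obtain ⟨s, hs, hm3⟩ := m3N_eq a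
  rw [hm3, hF2, hFW0, hFW1]
  have hgpos : 0 < gent a := by
    have h3 := (abs_le.1 hW1).1
    have : (0 : ℝ) < (gent a : ℝ) := by
      have : (2⁻¹ : ℝ) ^ 106 * (256 * gG (1 + θ)) ≤ 1 / 2 * (256 * gG (1 + θ)) :=
        mul_le_mul_of_nonneg_right (by norm_num) (by positivity)
      linarith
    exact_mod_cast this
  generalize gent (2 * a) = g2 at hErr ⊢
  generalize gent (8192 - a) = w0 at hErr ⊢
  generalize gent a = w1 at hErr hgpos ⊢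
  have hNr := quo_err g2 w0 w1 (8192 - a) hgpos (by omega)
  rw [hsub, ← hK] at hNr
  generalize quo g2 w0 w1 (8192 - a) = N at hNr ⊢
  have hNM : |(N : ℝ) - 2 ^ 100 * m3 θ ^ 2| ≤ 3 / 2 := by
    have t1 : |2 ^ 100 * ((g2 : ℝ) ^ 2 * w0 * K / (w1 : ℝ) ^ 3) - 2 ^ 100 * m3 θ ^ 2| ≤ 1 / 2 := by
      rw [← mul_sub, abs_mul, abs_of_pos (by positivity : (0 : ℝ) < 2 ^ 100)]
      have : m3 θ ^ 2 ≤ 4 := by nlinarith
      calc (2 : ℝ) ^ 100 * |(g2 : ℝ) ^ 2 * w0 * K / (w1 : ℝ) ^ 3 - m3 θ ^ 2|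
          ≤ 2 ^ 100 * (8 * 2⁻¹ ^ 106 * m3 θ ^ 2) := mul_le_mul_of_nonneg_left hErr (by positivity)
        _ ≤ 2 ^ 100 * (8 * 2⁻¹ ^ 106 * 4) := by
            apply mul_le_mul_of_nonneg_left _ (by positivity)
            exact mul_le_mul_of_nonneg_left this (by positivity)
        _ ≤ 1 / 2 := by norm_num
    have := abs_sub_le (N : ℝ) (2 ^ 100 * ((g2 : ℝ) ^ 2 * w0 * K / (w1 : ℝ) ^ 3)) (2 ^ 100 * m3 θ ^ 2)
    linarith
  clear hErr hNr hG2 hW0 hW1 hg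
  -- the square root
  have hRsq : (√(N : ℝ)) ^ 2 = N := Real.sq_sqrt (Nat.cast_nonneg _)
  have hR0 : 0 ≤ √(N : ℝ) := Real.sqrt_nonneg _
  generalize √(N : ℝ) = R at hRsq hR0
  have e7 : m3 θ = 2 ^ 50 * m3 θ / 2 ^ 50 := by field_simp
  have hQsq : (2 ^ 50 * m3 θ) ^ 2 = 2 ^ 100 * m3 θ ^ 2 := by ring
  have hQ1 : 2 ^ 50 ≤ 2 ^ 50 * m3 θ := by
    linarith [mul_le_mul_of_nonneg_left hm1 (by positivity : (0 : ℝ) ≤ 2 ^ 50)]
  have hQ2 : 2 ^ 50 * m3 θ ≤ 2 ^ 50 * (7 / 4) := mul_le_mul_of_nonneg_left hm2 (by positivity)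
  rw [← hQsq, ← hRsq] at hNM
  rw [e7]
  generalize (2 : ℝ) ^ 50 * m3 θ = Q at hQ1 hQ2 hNM ⊢
  have hRQ : |R - Q| ≤ 1 := by
    have e5 : R ^ 2 - Q ^ 2 = (R - Q) * (R + Q) := by ring
    have h6 : (2 : ℝ) ≤ 2 ^ 50 := by norm_num
    have h5 : (2 : ℝ) ≤ R + Q := by linarith
    rw [e5, abs_mul, abs_of_nonneg (by linarith : 0 ≤ R + Q)] at hNM
    nlinarith [abs_nonneg (R - Q)]
  rw [abs_le] at hRQ
  have hnew := newton7 hs hRsq (by linarith) (by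
    have : (2 : ℝ) ^ 50 * (7 / 4) + 1 ≤ 2 ^ 51 := by norm_num
    linarith)
  rw [abs_le] at hnew
  exact round10 (by linarith) (by linarith)

end Pool.Agent.Helper77.P705
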